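import Pool.Agent.Helper49.SymToricExt

/-!
# The reduced Groebner bases contain cubic elements with a block form

Let `n ≥ 4` and let `≺` be *any* of the orders `≺_{S_n}` of the problem.  The reduced Groebner
basis of `I_{S_n}` contains a binomial of degree three whose matrix is `2 J₃ ⊕ 6 I_{n-3}`.

Let `T_{ab}` be twice the permutation matrix of the transposition `(a b)` of `{0,1,2}`, let `I`
be twice the identity and let `C` be the adjacency matrix of the triangle (all of them extended by
`2 I_{n-3}`).  Then `T₀₁ + T₀₂ + T₁₂ = I + C + C`.  If `I` is smaller than all the `T`'s, then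
`T₀₁ T₀₂ T₁₂` is a minimal non-standard monomial; otherwise `I C C` is.
-/

open MvPolynomial
open scoped MonomialOrder
open Pool.Agent.Helper49.SymToric

namespace Pool.Agent.Results.MP_dd0c5a_co.DisconnectedCubic

/-- The double edge `{0, 1}` and the isolated vertex `2`. -/
def T01 : LatticePoint 3 := ⟨!![0, 2, 0; 2, 0, 0; 0, 0, 2], by decide, by decide⟩

/-- The double edge `{0, 2}` and the isolated vertex `1`. -/
def T02 : LatticePoint 3 := ⟨!![0, 0, 2; 0, 2, 0; 2, 0, 0], by decide, by decide⟩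

/-- The double edge `{1, 2}` and the isolated vertex `0`. -/
def T12 : LatticePoint 3 := ⟨!![2, 0, 0; 0, 0, 2; 0, 2, 0], by decide, by decide⟩

/-- Twice the identity. -/
def I3 : LatticePoint 3 := ⟨!![2, 0, 0; 0, 2, 0; 0, 0, 2], by decide, by decide⟩

/-- The triangle. -/
def C3 : LatticePoint 3 := ⟨!![0, 1, 1; 1, 0, 1; 1, 1, 0], by decide, by decide⟩

theorem relation : T01.toMatrix + T02.toMatrix + T12.toMatrix =
    I3.toMatrix + C3.toMatrix + C3.toMatrix := by decide

theorem numTwos_T01 : numTwos T01 = 3 := by decide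
theorem numTwos_T02 : numTwos T02 = 3 := by decide
theorem numTwos_T12 : numTwos T12 = 3 := by decide
theorem numTwos_I3 : numTwos I3 = 3 := by decide
theorem numTwos_C3 : numTwos C3 = 0 := by decide

/-- The linear relations between the entries of a lattice point of `S₃`. -/
theorem entries (K : LatticePoint 3) :
    K.toMatrix 0 0 + K.toMatrix 0 1 + K.toMatrix 0 2 = 2 ∧
    K.toMatrix 0 1 + K.toMatrix 1 1 + K.toMatrix 1 2 = 2 ∧
    K.toMatrix 0 2 + K.toMatrix 1 2 + K.toMatrix 2 2 = 2 ∧
    K.toMatrix 1 0 = K.toMatrix 0 1 ∧ K.toMatrix 2 0 = K.toMatrix 0 2 ∧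
    K.toMatrix 2 1 = K.toMatrix 1 2 := by
  have h0 := K.rowSum 0
  have h1 := K.rowSum 1
  have h2 := K.rowSum 2
  rw [Fin.sum_univ_three] at h0 h1 h2
  have e1 : K.toMatrix 1 0 = K.toMatrix 0 1 := K.isSymm.apply 0 1
  have e2 : K.toMatrix 2 0 = K.toMatrix 0 2 := K.isSymm.apply 0 2
  have e3 : K.toMatrix 2 1 = K.toMatrix 1 2 := K.isSymm.apply 1 2
  omega

theorem ext3 {K L : LatticePoint 3} (h00 : K.toMatrix 0 0 = L.toMatrix 0 0)
    (h01 : K.toMatrix 0 1 = L.toMatrix 0 1) (h02 : K.toMatrix 0 2 = L.toMatrix 0 2)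
    (h11 : K.toMatrix 1 1 = L.toMatrix 1 1) (h12 : K.toMatrix 1 2 = L.toMatrix 1 2)
    (h22 : K.toMatrix 2 2 = L.toMatrix 2 2) : K = L := by
  obtain ⟨-, -, -, a1, a2, a3⟩ := entries K
  obtain ⟨-, -, -, b1, b2, b3⟩ := entries L
  ext i j
  fin_cases i <;> fin_cases j <;> simp_all

theorem numTwos_three (K : LatticePoint 3) : numTwos K =
    ((if K.toMatrix 0 0 = 2 then 1 else 0) + (if K.toMatrix 0 1 = 2 then 1 else 0) +
      (if K.toMatrix 0 2 = 2 then 1 else 0)) +
    ((if K.toMatrix 1 0 = 2 then 1 else 0) + (if K.toMatrix 1 1 = 2 then 1 else 0) +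
      (if K.toMatrix 1 2 = 2 then 1 else 0)) +
    ((if K.toMatrix 2 0 = 2 then 1 else 0) + (if K.toMatrix 2 1 = 2 then 1 else 0) +
      (if K.toMatrix 2 2 = 2 then 1 else 0)) := by
  rw [numTwos_eq_sum, Fin.sum_univ_three, Fin.sum_univ_three, Fin.sum_univ_three,
    Fin.sum_univ_three]

theorem le_T01_T02 {K : LatticePoint 3}
    (h : ∀ i j, K.toMatrix i j ≤ T01.toMatrix i j + T02.toMatrix i j) (h3 : 3 ≤ numTwos K) :
    K = T01 ∨ K = T02 := by
  obtain ⟨e1, e2, e3, e4, e5, e6⟩ := entries K
  have a1 : K.toMatrix 0 0 ≤ 0 := h 0 0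
  have a2 : K.toMatrix 1 2 ≤ 0 := h 1 2
  have hc : K.toMatrix 0 1 = 0 ∨ K.toMatrix 0 1 = 1 ∨ K.toMatrix 0 1 = 2 := by omega
  rcases hc with hc | hc | hc
  · right
    exact ext3 (by change _ = 0; omega) (by change _ = 0; omega) (by change _ = 2; omega)
      (by change _ = 2; omega) (by change _ = 0; omega) (by change _ = 0; omega)
  · exfalso
    rw [numTwos_three, show K.toMatrix 0 0 = 0 by omega, hc, show K.toMatrix 0 2 = 1 by omega, e4,
      hc, show K.toMatrix 1 1 = 1 by omega, e6, show K.toMatrix 1 2 = 0 by omega, e5,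
      show K.toMatrix 0 2 = 1 by omega, show K.toMatrix 2 2 = 1 by omega] at h3
    simp at h3
  · left
    exact ext3 (by change _ = 0; omega) (by change _ = 2; omega) (by change _ = 0; omega)
      (by change _ = 0; omega) (by change _ = 0; omega) (by change _ = 2; omega)

theorem le_T01_T12 {K : LatticePoint 3}
    (h : ∀ i j, K.toMatrix i j ≤ T01.toMatrix i j + T12.toMatrix i j) (h3 : 3 ≤ numTwos K) :
    K = T01 ∨ K = T12 := by
  obtain ⟨e1, e2, e3, e4, e5, e6⟩ := entries K
  have a1 : K.toMatrix 0 2 ≤ 0 := h 0 2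
  have a2 : K.toMatrix 1 1 ≤ 0 := h 1 1
  have hc : K.toMatrix 0 1 = 0 ∨ K.toMatrix 0 1 = 1 ∨ K.toMatrix 0 1 = 2 := by omega
  rcases hc with hc | hc | hc
  · right
    exact ext3 (by change _ = 2; omega) (by change _ = 0; omega) (by change _ = 0; omega)
      (by change _ = 0; omega) (by change _ = 2; omega) (by change _ = 0; omega)
  · exfalso
    rw [numTwos_three, show K.toMatrix 0 0 = 1 by omega, hc, show K.toMatrix 0 2 = 0 by omega, e4,
      hc, show K.toMatrix 1 1 = 0 by omega, e6, show K.toMatrix 1 2 = 1 by omega, e5,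
      show K.toMatrix 0 2 = 0 by omega, show K.toMatrix 2 2 = 1 by omega] at h3
    simp at h3
  · left
    exact ext3 (by change _ = 0; omega) (by change _ = 2; omega) (by change _ = 0; omega)
      (by change _ = 0; omega) (by change _ = 0; omega) (by change _ = 2; omega)

theorem le_T02_T12 {K : LatticePoint 3}
    (h : ∀ i j, K.toMatrix i j ≤ T02.toMatrix i j + T12.toMatrix i j) (h3 : 3 ≤ numTwos K) :
    K = T02 ∨ K = T12 := by
  obtain ⟨e1, e2, e3, e4, e5, e6⟩ := entries K
  have a1 : K.toMatrix 0 1 ≤ 0 := h 0 1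
  have a2 : K.toMatrix 2 2 ≤ 0 := h 2 2
  have hc : K.toMatrix 0 2 = 0 ∨ K.toMatrix 0 2 = 1 ∨ K.toMatrix 0 2 = 2 := by omega
  rcases hc with hc | hc | hc
  · right
    exact ext3 (by change _ = 2; omega) (by change _ = 0; omega) (by change _ = 0; omega)
      (by change _ = 0; omega) (by change _ = 2; omega) (by change _ = 0; omega)
  · exfalso
    rw [numTwos_three, show K.toMatrix 0 0 = 1 by omega, show K.toMatrix 0 1 = 0 by omega, e4,
      show K.toMatrix 0 1 = 0 by omega, hc, show K.toMatrix 1 1 = 1 by omega, e6,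
      show K.toMatrix 1 2 = 1 by omega, e5, hc, show K.toMatrix 2 2 = 0 by omega] at h3
    simp at h3
  · left
    exact ext3 (by change _ = 0; omega) (by change _ = 0; omega) (by change _ = 2; omega)
      (by change _ = 2; omega) (by change _ = 0; omega) (by change _ = 0; omega)

theorem le_I3_C3 {K : LatticePoint 3}
    (h : ∀ i j, K.toMatrix i j ≤ I3.toMatrix i j + C3.toMatrix i j) (h3 : 3 ≤ numTwos K) :
    K = I3 := by
  obtain ⟨e1, e2, e3, e4, e5, e6⟩ := entries K
  have a1 : K.toMatrix 0 1 ≤ 1 := h 0 1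
  have a2 : K.toMatrix 0 2 ≤ 1 := h 0 2
  have a3 : K.toMatrix 1 2 ≤ 1 := h 1 2
  rw [numTwos_three, e4, e5, e6, if_neg (by omega : ¬ K.toMatrix 0 1 = 2),
    if_neg (by omega : ¬ K.toMatrix 0 2 = 2), if_neg (by omega : ¬ K.toMatrix 1 2 = 2)] at h3
  have b0 : K.toMatrix 0 0 = 2 := by
    by_contra hb
    rw [if_neg hb] at h3
    split_ifs at h3 <;> omega
  have b1 : K.toMatrix 1 1 = 2 := by
    by_contra hb
    rw [if_neg hb] at h3
    split_ifs at h3 <;> omega
  have b2 : K.toMatrix 2 2 = 2 := by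
    by_contra hb
    rw [if_neg hb] at h3
    split_ifs at h3 <;> omega
  exact ext3 (by change _ = 2; omega) (by change _ = 0; omega) (by change _ = 0; omega)
      (by change _ = 2; omega) (by change _ = 0; omega) (by change _ = 2; omega)

theorem le_C3_C3 {K : LatticePoint 3}
    (h : ∀ i j, K.toMatrix i j ≤ C3.toMatrix i j + C3.toMatrix i j) : K = C3 := by
  obtain ⟨e1, e2, e3, e4, e5, e6⟩ := entries K
  have a1 : K.toMatrix 0 0 ≤ 0 := h 0 0
  have a2 : K.toMatrix 1 1 ≤ 0 := h 1 1
  have a3 : K.toMatrix 2 2 ≤ 0 := h 2 2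
  exact ext3 (by change _ = 0; omega) (by change _ = 1; omega) (by change _ = 1; omega)
      (by change _ = 0; omega) (by change _ = 1; omega) (by change _ = 0; omega)

section

variable {r : ℕ} [ord : LinearOrder (LatticePoint (3 + r))]
  (hord : ∀ M N : LatticePoint (3 + r), numTwos N < numTwos M → M < N)

include hord

theorem three_le {K' X : LatticePoint 3} (hX : numTwos X = 3) (h : extend r K' < extend r X) :
    3 ≤ numTwos K' := by
  by_contra hlt
  refine lt_asymm h (hord _ _ ?_)
  rw [numTwos_extend, numTwos_extend, hX]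
  omega

theorem T_lt_C {X : LatticePoint 3} (hX : numTwos X = 3) : extend r X < extend r C3 := by
  refine hord _ _ ?_
  rw [numTwos_extend, numTwos_extend, hX, numTwos_C3]
  omega

theorem caseT (h1 : extend r I3 < extend r T01) (h2 : extend r I3 < extend r T02)
    (h3 : extend r I3 < extend r T12) :
    MinNonStandard (grevlex (LatticePoint (3 + r)))
      (cubic (extend r T01) (extend r T02) (extend r T12)) := by
  refine minNonStandard_cubic (sum_extend r relation) h1 h2 h3 ?_ ?_ ?_
  · intro K hK hK1 hK2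
    obtain ⟨K', rfl, hK'⟩ := exists_eq_extend r hK
    rcases le_T01_T02 hK' (three_le hord numTwos_T01 hK1) with rfl | rfl
    · exact lt_irrefl _ hK1
    · exact lt_irrefl _ hK2
  · intro K hK hK1 hK2
    obtain ⟨K', rfl, hK'⟩ := exists_eq_extend r hK
    rcases le_T01_T12 hK' (three_le hord numTwos_T01 hK1) with rfl | rfl
    · exact lt_irrefl _ hK1
    · exact lt_irrefl _ hK2
  · intro K hK hK1 hK2
    obtain ⟨K', rfl, hK'⟩ := exists_eq_extend r hK
    rcases le_T02_T12 hK' (three_le hord numTwos_T02 hK1) with rfl | rfl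
    · exact lt_irrefl _ hK1
    · exact lt_irrefl _ hK2

theorem caseI {X Y Z : LatticePoint 3} (hX : numTwos X = 3)
    (hsum : I3.toMatrix + C3.toMatrix + C3.toMatrix = X.toMatrix + Y.toMatrix + Z.toMatrix)
    (h1 : extend r X < extend r I3) :
    MinNonStandard (grevlex (LatticePoint (3 + r)))
      (cubic (extend r I3) (extend r C3) (extend r C3)) := by
  refine minNonStandard_cubic (sum_extend r hsum) h1 (T_lt_C hord hX) (T_lt_C hord hX) ?_ ?_ ?_
  · intro K hK hK1 _
    obtain ⟨K', rfl, hK'⟩ := exists_eq_extend r hK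
    rw [le_I3_C3 hK' (three_le hord numTwos_I3 hK1)] at hK1
    exact lt_irrefl _ hK1
  · intro K hK hK1 _
    obtain ⟨K', rfl, hK'⟩ := exists_eq_extend r hK
    rw [le_I3_C3 hK' (three_le hord numTwos_I3 hK1)] at hK1
    exact lt_irrefl _ hK1
  · intro K hK hK1 _
    obtain ⟨K', rfl, hK'⟩ := exists_eq_extend r hK
    rw [le_C3_C3 hK'] at hK1
    exact lt_irrefl _ hK1

theorem exists_minNonStandard_cubic :
    ∃ X Y Z : LatticePoint 3, MinNonStandard (grevlex (LatticePoint (3 + r)))
      (cubic (extend r X) (extend r Y) (extend r Z)) := by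
  by_cases h1 : extend r I3 < extend r T01
  · by_cases h2 : extend r I3 < extend r T02
    · by_cases h3 : extend r I3 < extend r T12
      · exact ⟨_, _, _, caseT hord h1 h2 h3⟩
      · have hne : extend r T12 ≠ extend r I3 := fun e =>
          absurd (congrArg (fun M => M.toMatrix 1 1) (extend_injective r e)) (by decide)
        exact ⟨_, _, _, caseI hord (X := T12) (Y := T01) (Z := T02) numTwos_T12 (by decide)
          (lt_of_le_of_ne (not_lt.1 h3) hne)⟩
    · have hne : extend r T02 ≠ extend r I3 := fun e =>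
        absurd (congrArg (fun M => M.toMatrix 0 0) (extend_injective r e)) (by decide)
      exact ⟨_, _, _, caseI hord (X := T02) (Y := T01) (Z := T12) numTwos_T02 (by decide)
        (lt_of_le_of_ne (not_lt.1 h2) hne)⟩
  · have hne : extend r T01 ≠ extend r I3 := fun e =>
      absurd (congrArg (fun M => M.toMatrix 0 0) (extend_injective r e)) (by decide)
    exact ⟨_, _, _, caseI hord (X := T01) (Y := T02) (Z := T12) numTwos_T01 (by decide)
      (lt_of_le_of_ne (not_lt.1 h1) hne)⟩

end

/-- **For every `n ≥ 4` and every order `≺_{S_n}` the reduced Groebner basis of the toric ideal of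
`S_n` contains a binomial of degree three whose matrix has a block form.** -/
theorem result (k : Type*) [Field k] (n : ℕ) (hn : 4 ≤ n) (ord : LinearOrder (LatticePoint n))
    (hord : ∀ M N : LatticePoint n, numTwos N < numTwos M → M < N) :
    (∃! G : Set (MvPolynomial (LatticePoint n) k),
      IsReducedGroebnerBasis (grevlex (LatticePoint n)) (toricIdeal k n) G) ∧
    ∀ G : Set (MvPolynomial (LatticePoint n) k),
      IsReducedGroebnerBasis (grevlex (LatticePoint n)) (toricIdeal k n) G →
      ∃ u v : LatticePoint n →₀ ℕ, monomial u 1 - monomial v 1 ∈ G ∧ u ≠ v ∧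
        u.degree = 3 ∧ v.degree = 3 ∧ matrixOf u = matrixOf v ∧ HasBlockForm (matrixOf u) := by
  refine ⟨existsUnique_basis, fun G hG => ?_⟩
  obtain ⟨r, rfl⟩ := Nat.exists_eq_add_of_le (show 3 ≤ n by omega)
  obtain ⟨X, Y, Z, h⟩ := exists_minNonStandard_cubic hord
  obtain ⟨v, hv, hne, hdeg, hmat⟩ := exists_mem_of_minNonStandard hG h
  refine ⟨_, v, hv, hne.symm, degree_cubic _ _ _, by rw [hdeg, degree_cubic], hmat.symm, ?_⟩
  rw [matrixOf_cubic]
  exact hasBlockForm_extend r (by omega) (by omega) X Y Z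

end Pool.Agent.Results.MP_dd0c5a_co.DisconnectedCubic
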