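import Pool.Agent.Helper49.SymToricExt

/-!
# The reversed convention for the order

In `DisconnectedCubic` the lattice points with more entries equal to `2` index *smaller*
variables, exactly as in the problem.  Here we treat the opposite convention: lattice points with
more entries equal to `2` index *larger* variables (under that convention the leading terms of the
quadratic elements of the reduced Groebner basis are squarefree).

For every `n ≥ 5` there is such an order for which the reduced Groebner basis contains a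
binomial of degree three whose matrix has a block form, with blocks `{0,1}`, `{2,3,4}` and
singletons.
-/

open MvPolynomial
open scoped MonomialOrder
open Pool.Agent.Helper49.SymToric

namespace Pool.Agent.Results.MP_dd0c5a_co.DisconnectedCubicRev

/-- `J ⊕ P₄`: all-ones on `{0, 1}`, path with loops `2 - 4 - 3` on `{2, 3, 4}`. -/
def N1 : LatticePoint 5 :=
  ⟨!![1, 1, 0, 0, 0; 1, 1, 0, 0, 0; 0, 0, 1, 0, 1; 0, 0, 0, 1, 1; 0, 0, 1, 1, 0],
    by decide, by decide⟩

/-- `J ⊕ C`: all-ones on `{0, 1}`, triangle on `{2, 3, 4}`. -/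
def M1 : LatticePoint 5 :=
  ⟨!![1, 1, 0, 0, 0; 1, 1, 0, 0, 0; 0, 0, 0, 1, 1; 0, 0, 1, 0, 1; 0, 0, 1, 1, 0],
    by decide, by decide⟩

/-- `D ⊕ P₂`: double edge `{0, 1}`, path with loops `3 - 2 - 4`. -/
def M2 : LatticePoint 5 :=
  ⟨!![0, 2, 0, 0, 0; 2, 0, 0, 0, 0; 0, 0, 0, 1, 1; 0, 0, 1, 1, 0; 0, 0, 1, 0, 1],
    by decide, by decide⟩

/-- `D ⊕ P₃`: double edge `{0, 1}`, path with loops `2 - 3 - 4`. -/
def M3 : LatticePoint 5 :=
  ⟨!![0, 2, 0, 0, 0; 2, 0, 0, 0, 0; 0, 0, 1, 1, 0; 0, 0, 1, 0, 1; 0, 0, 0, 1, 1],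
    by decide, by decide⟩

/-- `D ⊕ T`: double edges `{0, 1}` and `{2, 3}`, isolated vertex `4`. -/
def N2 : LatticePoint 5 :=
  ⟨!![0, 2, 0, 0, 0; 2, 0, 0, 0, 0; 0, 0, 0, 2, 0; 0, 0, 2, 0, 0; 0, 0, 0, 0, 2],
    by decide, by decide⟩

/-- `D ⊕ C`: double edge `{0, 1}`, triangle on `{2, 3, 4}`. -/
def N3 : LatticePoint 5 :=
  ⟨!![0, 2, 0, 0, 0; 2, 0, 0, 0, 0; 0, 0, 0, 1, 1; 0, 0, 1, 0, 1; 0, 0, 1, 1, 0],
    by decide, by decide⟩

theorem relation : M1.toMatrix + M2.toMatrix + M3.toMatrix =
    N1.toMatrix + N2.toMatrix + N3.toMatrix := by decide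

theorem numTwos_N1 : numTwos N1 = 0 := by decide
theorem numTwos_M1 : numTwos M1 = 0 := by decide
theorem numTwos_M2 : numTwos M2 = 2 := by decide
theorem numTwos_M3 : numTwos M3 = 2 := by decide

/-- A lattice point below `M2 + M3` has the double edge `{0, 1}`. -/
theorem two_le_numTwos {K : LatticePoint 5}
    (h : ∀ i j, K.toMatrix i j ≤ M2.toMatrix i j + M3.toMatrix i j) : 2 ≤ numTwos K := by
  have h0 := K.rowSum 0
  rw [Fin.sum_univ_five] at h0
  have a0 : K.toMatrix 0 0 ≤ 0 := h 0 0
  have a2 : K.toMatrix 0 2 ≤ 0 := h 0 2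
  have a3 : K.toMatrix 0 3 ≤ 0 := h 0 3
  have a4 : K.toMatrix 0 4 ≤ 0 := h 0 4
  have a1 : K.toMatrix 0 1 = 2 := by omega
  have a1' : K.toMatrix 1 0 = 2 := by rw [← a1]; exact K.isSymm.apply 0 1
  have hsub : ({((0 : Fin 5), (1 : Fin 5)), (1, 0)} : Finset (Fin 5 × Fin 5)) ⊆
      Finset.univ.filter fun p : Fin 5 × Fin 5 => K.toMatrix p.1 p.2 = 2 := by
    intro p hp
    simp only [Finset.mem_insert, Finset.mem_singleton] at hp
    rcases hp with rfl | rfl
    · simpa using a1
    · simpa using a1'
  calc 2 = ({((0 : Fin 5), (1 : Fin 5)), (1, 0)} : Finset (Fin 5 × Fin 5)).card := by decide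
    _ ≤ _ := Finset.card_le_card hsub

section order

variable (r : ℕ)

open Classical in
/-- The rank inside the class of lattice points with the same number of twos. -/
noncomputable def rank (M : LatticePoint (5 + r)) : ℕ :=
  if M = extend r N1 ∨ M = extend r M2 then 0 else if M = extend r M1 then 1 else 2

/-- The key: compare first the numbers of twos, then the ranks. -/
noncomputable def key (M : LatticePoint (5 + r)) :
    ℕ ×ₗ (ℕ ×ₗ Fin (Nat.card (LatticePoint (5 + r)))) :=
  toLex (numTwos M, toLex (rank r M, Finite.equivFin _ M))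

theorem key_injective : Function.Injective (key r) := by
  intro M N h
  have h2 := congrArg (fun x => (ofLex (ofLex x).2).2) h
  exact (Finite.equivFin _).injective h2

/-- The order on the lattice points. -/
noncomputable abbrev ord : LinearOrder (LatticePoint (5 + r)) :=
  LinearOrder.lift' (key r) (key_injective r)

attribute [local instance] ord

theorem lt_of_numTwos {M N : LatticePoint (5 + r)} (h : numTwos M < numTwos N) : M < N := by
  change key r M < key r N
  rw [key, key, Prod.Lex.toLex_lt_toLex]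
  exact Or.inl h

theorem le_of_lt {M N : LatticePoint (5 + r)} (h : M < N) :
    numTwos M < numTwos N ∨ (numTwos M = numTwos N ∧ rank r M ≤ rank r N) := by
  change key r M < key r N at h
  rw [key, key, Prod.Lex.toLex_lt_toLex] at h
  rcases h with h | ⟨h1, h2⟩
  · exact Or.inl h
  · right
    refine ⟨h1, ?_⟩
    rw [Prod.Lex.toLex_lt_toLex] at h2
    rcases h2 with h2 | ⟨h2, -⟩
    · exact h2.le
    · exact h2.le

theorem ne_of_entry {X Y : LatticePoint 5} (i j : Fin 5) (h : X.toMatrix i j ≠ Y.toMatrix i j) :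
    extend r X ≠ extend r Y := fun e =>
  h (congrArg (fun M => M.toMatrix i j) (extend_injective r e))

theorem rank_N1 : rank r (extend r N1) = 0 := by simp [rank]
theorem rank_M2 : rank r (extend r M2) = 0 := by simp [rank]

theorem rank_M1 : rank r (extend r M1) = 1 := by
  have h1 : extend r M1 ≠ extend r N1 := ne_of_entry r 2 2 (by decide)
  have h2 : extend r M1 ≠ extend r M2 := ne_of_entry r 0 0 (by decide)
  simp [rank, h1, h2]

theorem N1_lt_M1 : extend r N1 < extend r M1 := by
  change key r _ < key r _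
  rw [key, key, Prod.Lex.toLex_lt_toLex]
  right
  refine ⟨by rw [numTwos_extend, numTwos_extend, numTwos_N1, numTwos_M1], ?_⟩
  rw [Prod.Lex.toLex_lt_toLex]
  left
  change rank r _ < rank r _
  rw [rank_N1, rank_M1]
  omega

/-- Only `N1` and lattice points with fewer twos are smaller than `M1`. -/
theorem lt_M1 {K' : LatticePoint 5} (h : extend r K' < extend r M1) : K' = N1 := by
  rcases le_of_lt r h with h1 | ⟨h1, h2⟩
  · rw [numTwos_extend, numTwos_extend, numTwos_M1] at h1
    omega
  · rw [rank_M1] at h2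
    unfold rank at h2
    split_ifs at h2 with h3 h4
    · rcases h3 with h3 | h3
      · exact extend_injective r h3
      · exfalso
        rw [h3, numTwos_extend, numTwos_extend, numTwos_M1, numTwos_M2] at h1
        omega
    · exfalso
      rw [h4] at h
      exact lt_irrefl _ h
    · omega

/-- Only lattice points with fewer twos are smaller than `M2`. -/
theorem lt_M2 {K' : LatticePoint 5} (h : extend r K' < extend r M2) : numTwos K' < 2 := by
  rcases le_of_lt r h with h1 | ⟨h1, h2⟩
  · rw [numTwos_extend, numTwos_extend, numTwos_M2] at h1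
    omega
  · exfalso
    rw [rank_M2] at h2
    unfold rank at h2
    split_ifs at h2 with h3 h4
    · rcases h3 with h3 | h3
      · rw [h3, numTwos_extend, numTwos_extend, numTwos_N1, numTwos_M2] at h1
        omega
      · rw [h3] at h
        exact lt_irrefl _ h
    · omega
    · omega

theorem minNonStandard : MinNonStandard (grevlex (LatticePoint (5 + r)))
    (cubic (extend r M1) (extend r M2) (extend r M3)) := by
  refine minNonStandard_cubic (sum_extend r relation) (N1_lt_M1 r)
    (lt_of_numTwos r (by rw [numTwos_extend, numTwos_extend, numTwos_N1, numTwos_M2]; omega))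
    (lt_of_numTwos r (by rw [numTwos_extend, numTwos_extend, numTwos_N1, numTwos_M3]; omega))
    ?_ ?_ ?_
  · intro K hK hK1 _
    obtain ⟨K', rfl, hK'⟩ := exists_eq_extend r hK
    rw [lt_M1 r hK1] at hK'
    exact absurd (hK' 2 2) (by decide)
  · intro K hK hK1 _
    obtain ⟨K', rfl, hK'⟩ := exists_eq_extend r hK
    rw [lt_M1 r hK1] at hK'
    exact absurd (hK' 3 3) (by decide)
  · intro K hK hK1 _
    obtain ⟨K', rfl, hK'⟩ := exists_eq_extend r hK
    exact absurd (two_le_numTwos hK') (not_le.2 (lt_M2 r hK1))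

end order

/-- A block form with the block `{0, 1}`. -/
theorem hasBlockForm (r : ℕ) : HasBlockForm
    ((extend r M1).toMatrix + (extend r M2).toMatrix + (extend r M3).toMatrix) := by
  refine ⟨{Fin.castAdd r 0, Fin.castAdd r 1}, ⟨_, Or.inl rfl⟩, ⟨Fin.castAdd r 2, ?_⟩, ?_⟩
  · simp [Fin.ext_iff]
  · intro i hi j hj
    obtain ⟨j, rfl⟩ := finSumFinEquiv.surjective j
    have hi' : ∃ i' : Fin 5, (i' = 0 ∨ i' = 1) ∧ i = finSumFinEquiv (Sum.inl i') := by
      rcases hi with rfl | hi
      · exact ⟨0, Or.inl rfl, rfl⟩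
      · exact ⟨1, Or.inr rfl, hi⟩
    obtain ⟨i', hi', rfl⟩ := hi'
    simp only [Matrix.add_apply, extend_apply]
    rcases j with j | j
    · simp only [Matrix.fromBlocks_apply₁₁]
      have hj' : j ≠ 0 ∧ j ≠ 1 := by
        constructor
        · rintro rfl; exact hj (Or.inl rfl)
        · rintro rfl; exact hj (Or.inr rfl)
      clear hj hi
      revert i' j
      decide
    · simp

/-- **For every `n ≥ 5` there is an order in which the lattice points with more entries equal to
`2` index larger variables, such that the reduced Groebner basis of the toric ideal of `S_n`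
contains a binomial of degree three whose matrix has a block form.** -/
theorem result (k : Type*) [Field k] (n : ℕ) (hn : 5 ≤ n) :
    ∃ ord : LinearOrder (LatticePoint n),
      (∀ M N : LatticePoint n, numTwos M < numTwos N → M < N) ∧
      (∃! G : Set (MvPolynomial (LatticePoint n) k),
        IsReducedGroebnerBasis (grevlex (LatticePoint n)) (toricIdeal k n) G) ∧
      ∀ G : Set (MvPolynomial (LatticePoint n) k),
        IsReducedGroebnerBasis (grevlex (LatticePoint n)) (toricIdeal k n) G →
        ∃ u v : LatticePoint n →₀ ℕ, monomial u 1 - monomial v 1 ∈ G ∧ u ≠ v ∧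
          u.degree = 3 ∧ v.degree = 3 ∧ matrixOf u = matrixOf v ∧
          HasBlockForm (matrixOf u) := by
  obtain ⟨r, rfl⟩ := Nat.exists_eq_add_of_le hn
  refine ⟨ord r, fun M N h => lt_of_numTwos r h, existsUnique_basis, fun G hG => ?_⟩
  let _ := ord r
  obtain ⟨v, hv, hne, hdeg, hmat⟩ := exists_mem_of_minNonStandard hG (minNonStandard r)
  refine ⟨_, v, hv, hne.symm, degree_cubic _ _ _, by rw [hdeg, degree_cubic], hmat.symm, ?_⟩
  rw [matrixOf_cubic]
  exact hasBlockForm r

end Pool.Agent.Results.MP_dd0c5a_co.DisconnectedCubicRev
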